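import Pool.Agent.H98.BE.Main

/-!
# Affine subspaces of codimension `O(log^2(1/α) log log(1/α))` in `kA`, `k ≥ 4`, and almost in `A + A`

For the method see `Pool/Agent/H98/BQ`, `Pool/Agent/H98/BE` and the file on MP_169871_nt.
-/

set_option autoImplicit false

namespace Pool.Agent.Results.MP_c6cae0_co.MostOfACoset

open Finset
open scoped Pointwise

/-- For every `ε ∈ (0, 1/2)` there is a constant `C` such that for every `n`, every `α ∈ (0, 1]` and
every `A ⊆ F_2^n` with `|A| ≥ α 2^n` there is a subspace `V` of codimension at most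
`C log^2(1/α) log(2 + log(1/α))` with the following properties: every subset `W` of `V` (`W = V`, for
example) has a translate `z + W` of which at least `(1 - ε) |W|` elements are in `A + A`; and for
every `k ≥ 4` the `k`-fold sumset `kA` contains the affine subspaces `(k - 4) a + V`, `a ∈ A`. -/
theorem result : ∀ ε : ℝ, 0 < ε → ε < 1 / 2 → ∃ C : ℝ, 0 < C ∧
    ∀ (n : ℕ) (α : ℝ) (A : Finset (Fin n → ZMod 2)), 0 < α → α ≤ 1 → α * 2 ^ n ≤ (A.card : ℝ) →
    ∃ V : Submodule (ZMod 2) (Fin n → ZMod 2),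
      (n : ℝ) ≤ Module.finrank (ZMod 2) V +
        C * (Real.log (1 / α) ^ 2 * Real.log (2 + Real.log (1 / α))) ∧
      (∀ W : Finset (Fin n → ZMod 2), (∀ w ∈ W, w ∈ V) →
        ∃ z : Fin n → ZMod 2,
          (1 - ε) * (W.card : ℝ) ≤ ((W.filter fun w => z + w ∈ A + A).card : ℝ)) ∧
      ∀ k : ℕ, 4 ≤ k → ∀ a ∈ A, ∀ v ∈ V, (k - 4) • a + v ∈ k • A :=
  Pool.Agent.H98.BE.f2w Pool.Agent.H98.BE.fqeMain

end Pool.Agent.Results.MP_c6cae0_co.MostOfACoset
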